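import Pool.Agent.Work.MP_959bfa_lin.Interface3
import Pool.Agent.Work.MP_959bfa_wn_helper50.GAP

/-!
MP_959bfa_co, block GAP3: piercing number against fractional packing number.
-/

namespace Wn

open Finset

/-- numerical estimate: few coincidences in the exponential weights -/
theorem gap3_num (d w n t g : ℕ) (T L : ℝ) (hT : 1 ≤ T) (hL : 1 ≤ L) (hw : 5 * L ≤ w)
    (hn : 1 ≤ n) (hlog : 2 * Real.log n ≤ L) (hg : g ≤ n * n) (ht : (t : ℝ) ≤ T * L + 1)
    (h : (2 : ℝ) ^ d ≤ g * (1 + 1 / T) ^ t) : d ≤ w := by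
  have hTp : 0 < T := by linarith
  have hnp : (0 : ℝ) < n := by exact_mod_cast hn
  have h1 : (1 + 1 / T) ^ t ≤ Real.exp (t * (1 / T)) := by
    rw [Real.exp_nat_mul]
    apply pow_le_pow_left₀ (by positivity)
    linarith [Real.add_one_le_exp (1 / T)]
  have h2 : (g : ℝ) ≤ Real.exp (2 * Real.log n) := by
    have e : Real.exp (2 * Real.log n) = (n : ℝ) * n := by
      rw [two_mul, Real.exp_add, Real.exp_log hnp]
    rw [e]
    exact_mod_cast hg
  have h3 : (t : ℝ) * (1 / T) ≤ L + 1 := by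
    have : (t : ℝ) * (1 / T) ≤ (T * L + 1) * (1 / T) :=
      mul_le_mul_of_nonneg_right ht (by positivity)
    have e : (T * L + 1) * (1 / T) = L + 1 / T := by
      field_simp
    rw [e] at this
    have : 1 / T ≤ 1 := by
      rw [div_le_one hTp]; linarith
    linarith
  have h4 : (2 : ℝ) ^ d ≤ Real.exp (3 * L) := by
    calc (2 : ℝ) ^ d ≤ g * (1 + 1 / T) ^ t := h
      _ ≤ Real.exp (2 * Real.log n) * Real.exp (t * (1 / T)) :=
          mul_le_mul h2 h1 (by positivity) (Real.exp_pos _).le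
      _ = Real.exp (2 * Real.log n + t * (1 / T)) := by rw [Real.exp_add]
      _ ≤ Real.exp (3 * L) := by
          apply Real.exp_le_exp.2
          linarith
  have h5 : (d : ℝ) * Real.log 2 ≤ 3 * L := by
    have := Real.log_le_log (by positivity) h4
    rw [Real.log_exp, Real.log_pow] at this
    exact this
  have h6 : (0.6931471803 : ℝ) < Real.log 2 := Real.log_two_gt_d9
  have hd : (0 : ℝ) ≤ d := Nat.cast_nonneg d
  have h7 : (d : ℝ) * 0.6931471803 ≤ 3 * L := by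
    have : (d : ℝ) * 0.6931471803 ≤ d * Real.log 2 := mul_le_mul_of_nonneg_left h6.le hd
    linarith
  have h8 : (d : ℝ) ≤ w := by
    have : (d : ℝ) ≤ 5 * L := by
      linarith
    linarith
  exact_mod_cast h8

/-- GAP3 -/
theorem GAP3 (hM : stmt_MWU) : stmt_GAP3 := by
  classical
  intro F μ hF hnets n κ P hκ hnκ p hp δ hδ hfrac
  have hκR : (1 : ℝ) ≤ κ := by exact_mod_cast hκ
  have hF0 : 0 ≤ F := by linarith
  -- no box at all
  by_cases hbox : ∃ R : Bx, p (inds P R)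
  swap
  · push Not at hbox
    refine ⟨∅, ?_, fun R hR => absurd hR (hbox R)⟩
    rw [Finset.card_empty]
    push_cast
    positivity
  obtain ⟨R₀, hR₀⟩ := hbox
  have hne₀ : (inds P R₀).Nonempty := by
    rw [← Finset.card_pos]
    have := hp _ hR₀
    omega
  have hn : 1 ≤ n := by
    obtain ⟨i, _⟩ := hne₀
    exact Nat.one_le_iff_ne_zero.2 fun h0 => by
      subst h0
      exact i.elim0
  have hδ1 : 1 ≤ δ := by
    obtain ⟨S, _, _, s3, s4, _⟩ := gap_bbox P R₀ hne₀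
    have h1 := hfrac 1 1 (fun _ => S) le_rfl (fun _ => ⟨s3, by rw [s4]; exact hR₀⟩) (by
      intro x y
      refine (Finset.card_le_univ _).trans ?_
      simp)
    push_cast at h1
    linarith
  obtain ⟨T, hTdef⟩ : ∃ T : ℝ, T = 7 * δ := ⟨_, rfl⟩
  have hT1 : 1 ≤ T := by rw [hTdef]; linarith
  have hFT : 7 * F * δ = F * T := by rw [hTdef]; ring
  rw [hFT]
  rcases le_total μ T with hμT | hTμ
  · obtain ⟨Z, hZ, hhit⟩ := hnets n κ P hκ hnκ
    refine ⟨Z, hZ.trans ?_, fun R hR => hhit R (hp _ hR)⟩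
    apply mul_le_mul_of_nonneg_left _ hF0
    rw [div_le_iff₀ (by linarith)]
    exact hnκ.trans (mul_le_mul_of_nonneg_right hμT (by linarith))
  by_contra hcon
  obtain ⟨L, hLdef⟩ : ∃ L : ℝ, L = max 1 (2 * Real.log n) := ⟨_, rfl⟩
  have hL : 1 ≤ L := by rw [hLdef]; exact le_max_left _ _
  have hlog : 2 * Real.log n ≤ L := by rw [hLdef]; exact le_max_right _ _
  obtain ⟨w, hwdef⟩ : ∃ w : ℕ, w = ⌈5 * L⌉₊ := ⟨_, rfl⟩
  have hw5 : 5 * L ≤ w := by rw [hwdef]; exact Nat.le_ceil _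
  have hw6 : (w : ℝ) ≤ 6 * L := by
    rw [hwdef]
    have := (Nat.ceil_lt_add_one (show 0 ≤ 5 * L by linarith)).le
    linarith
  have hw1 : 1 ≤ w := by
    have : (0 : ℝ) < w := by linarith
    exact_mod_cast this
  -- the family of tight boxes
  obtain ⟨W, hW⟩ : ∃ W : Set Bx, W = {S : Bx | (∃ i, S.l = (P i).1) ∧ (∃ i, S.b = (P i).2) ∧
      Ne S ∧ p (inds P S)} := ⟨_, rfl⟩
  have hnoW : ¬ ∃ Z : Finset (ℝ × ℝ), (Z.card : ℝ) ≤ F * T ∧
      ∀ R ∈ W, ∃ z ∈ Z, In R z.1 z.2 := by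
    rintro ⟨Z, hZ, hhit⟩
    apply hcon
    refine ⟨Z, hZ, fun R hR => ?_⟩
    have hne : (inds P R).Nonempty := by
      rw [← Finset.card_pos]
      have := hp _ hR
      omega
    obtain ⟨S, s1, s2, s3, s4, s5⟩ := gap_bbox P R hne
    have hSW : S ∈ W := by
      rw [hW]
      exact ⟨s1, s2, s3, by rw [s4]; exact hR⟩
    obtain ⟨z, hz, hin⟩ := hhit S hSW
    exact ⟨z, hz, s5 _ _ hin⟩
  obtain ⟨X, hX⟩ : ∃ X : Finset ℝ, X = Finset.univ.image (fun i => (P i).1) := ⟨_, rfl⟩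
  obtain ⟨Y, hY⟩ : ∃ Y : Finset ℝ, Y = Finset.univ.image (fun i => (P i).2) := ⟨_, rfl⟩
  have hXc : X.card ≤ n := by
    rw [hX]
    refine Finset.card_image_le.trans ?_
    rw [Finset.card_univ, Fintype.card_fin]
  have hYc : Y.card ≤ n := by
    rw [hY]
    refine Finset.card_image_le.trans ?_
    rw [Finset.card_univ, Fintype.card_fin]
  have hGc : (X ×ˢ Y).card ≤ n * n := by
    rw [Finset.card_product]
    exact Nat.mul_le_mul hXc hYc
  have hGne : (X ×ˢ Y).Nonempty := by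
    refine ⟨((P ⟨0, hn⟩).1, (P ⟨0, hn⟩).2), Finset.mem_product.2 ⟨?_, ?_⟩⟩
    · rw [hX]; exact Finset.mem_image.2 ⟨⟨0, hn⟩, Finset.mem_univ _, rfl⟩
    · rw [hY]; exact Finset.mem_image.2 ⟨⟨0, hn⟩, Finset.mem_univ _, rfl⟩
  obtain ⟨t, ht⟩ : ∃ t : ℕ, t = ⌈T * L⌉₊ := ⟨_, rfl⟩
  have ht1 : T * L ≤ t := by rw [ht]; exact Nat.le_ceil _
  have ht2 : (t : ℝ) ≤ T * L + 1 := by
    rw [ht]
    exact (Nat.ceil_lt_add_one (by positivity)).le
  obtain ⟨R, hRW, hsum⟩ := hM F μ T hF0 hT1 hTμ hnets W hnoW (X ×ˢ Y) hGne t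
  have hRW' : ∀ i, (∃ j, (R i).l = (P j).1) ∧ (∃ j, (R i).b = (P j).2) ∧ Ne (R i) ∧
      p (inds P (R i)) := by
    intro i
    have := hRW i
    rw [hW] at this
    exact this
  have hdepth : DepthLe R univ w := by
    apply gap_depth R X Y
    · intro i
      obtain ⟨j, hj⟩ := (hRW' i).1
      rw [hX, hj]
      exact Finset.mem_image.2 ⟨j, Finset.mem_univ _, rfl⟩
    · intro i
      obtain ⟨j, hj⟩ := (hRW' i).2.1
      rw [hY, hj]
      exact Finset.mem_image.2 ⟨j, Finset.mem_univ _, rfl⟩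
    · intro q hq
      apply gap3_num _ w n t (X ×ˢ Y).card T L hT1 hL hw5 hn hlog hGc ht2
      refine le_trans ?_ hsum
      exact Finset.single_le_sum
        (f := fun p : ℝ × ℝ => (2 : ℝ) ^ ((fl univ (fun i => In (R i) p.1 p.2)).card))
        (fun _ _ => by positivity) hq
  have hfin := hfrac w t R hw1 (fun i => ⟨(hRW' i).2.2.1, (hRW' i).2.2.2⟩) hdepth
  have h1 : T * L ≤ δ * (6 * L) :=
    (ht1.trans hfin).trans (mul_le_mul_of_nonneg_left hw6 hδ)
  rw [hTdef] at h1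
  have h2 : 0 < δ * L := mul_pos (by linarith) (by linarith)
  nlinarith

end Wn
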